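import Pool.Agent.Y746.OM.Stm
import Pool.Agent.H370R2.PC2
import Pool.Agent.H370R2.DirGood

/-!
OM-CNT: comparison of the sum of the kernel over the zeros with the numbers of zeros in intervals.
-/

set_option autoImplicit false

namespace Pool.Agent.Y474.OM

open Finset Filter Topology MeasureTheory
open H370 (zset mult NN Zf zz)
open Pool.Agent.Y746.OM

noncomputable section

/-- the number of points of `Z` in the window at `w` -/
def nw (Z : Finset ℂ) (m : ℂ → ℝ) (t h w : ℝ) : ℝ :=
  ∑ s ∈ Z, (if s.im - t - h ≤ w ∧ w < s.im - t then m s else 0)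

theorem ind_eq (f : ℝ → ℝ) (a b c : ℝ) :
    (fun w => f w * (if a ≤ w ∧ w < b then c else 0)) =
      Set.indicator (Set.Ico a b) (fun w => f w * c) := by
  ext w
  simp only [Set.indicator, Set.mem_Ico]
  split_ifs <;> simp

theorem ind_int (f : ℝ → ℝ) (hf : Continuous f) (a b c : ℝ) :
    Integrable (fun w => f w * (if a ≤ w ∧ w < b then c else 0)) := by
  rw [ind_eq, integrable_indicator_iff measurableSet_Ico]
  have h1 : IntegrableOn (fun w => f w * c) (Set.Icc a b) :=
    (hf.mul continuous_const).continuousOn.integrableOn_compact isCompact_Icc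
  exact h1.mono_set Set.Ico_subset_Icc_self

theorem nw_int (Z : Finset ℂ) (m : ℂ → ℝ) (t h : ℝ) (f : ℝ → ℝ) (hf : Continuous f) :
    Integrable (fun w => f w * nw Z m t h w) := by
  unfold nw
  simp_rw [Finset.mul_sum]
  exact integrable_finsetSum _ fun s _ => ind_int f hf _ _ _

theorem swap (Z : Finset ℂ) (m : ℂ → ℝ) (t h : ℝ) (hh : 0 ≤ h) (f : ℝ → ℝ) (hf : Continuous f) :
    ∫ v in (0 : ℝ)..h, ∑ s ∈ Z, m s * f (s.im - (t + v)) = ∫ w : ℝ, f w * nw Z m t h w := by
  unfold nw
  simp_rw [Finset.mul_sum]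
  rw [intervalIntegral.integral_finsetSum, integral_finsetSum]
  · refine Finset.sum_congr rfl fun s _ => ?_
    rw [ind_eq, integral_indicator measurableSet_Ico, integral_Ico_eq_integral_Ioo,
      ← integral_Ioc_eq_integral_Ioo, ← intervalIntegral.integral_of_le (by linarith)]
    have h2 := intervalIntegral.integral_comp_sub_left (a := 0) (b := h)
      (fun w => f w * m s) (s.im - t)
    rw [sub_zero] at h2
    rw [← h2]
    refine intervalIntegral.integral_congr fun v _ => ?_
    rw [mul_comm, sub_sub]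
  · intro s _
    exact ind_int f hf _ _ _
  · intro s _
    refine Continuous.intervalIntegrable ?_ _ _
    exact continuous_const.mul (hf.comp (by fun_prop))

theorem tail (T B C w : ℝ) (hT : 10 ≤ T) (hB0 : 0 ≤ B) (hB : B ≤ Real.log T) (hC : 0 ≤ C)
    (hw : Real.log T ≤ |w|) :
    B * Real.exp (-w ^ 2 / 2) * (C * (T * Real.log T)) ≤
      C * Real.exp 9 * Real.exp (-(1 / 4) * w ^ 2) := by
  have hT0 : 0 < T := by linarith
  have h1 : Real.log T ≤ T := (Real.log_le_sub_one_of_pos hT0).trans (by linarith)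
  have h0 : 0 ≤ Real.log T := hB0.trans hB
  have h2 : B * Real.exp (-w ^ 2 / 2) * (C * (T * Real.log T)) ≤
      T * Real.exp (-w ^ 2 / 2) * (C * (T * T)) := by
    have h3 : B ≤ T := hB.trans h1
    gcongr
  refine h2.trans ?_
  have h4 : T * Real.exp (-w ^ 2 / 2) * (C * (T * T)) =
      C * Real.exp (3 * Real.log T + -w ^ 2 / 2) := by
    rw [Real.exp_add, show (3 : ℝ) * Real.log T = Real.log T + Real.log T + Real.log T by ring,
      Real.exp_add, Real.exp_add, Real.exp_log hT0]
    ring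
  rw [h4, mul_assoc, ← Real.exp_add]
  refine mul_le_mul_of_nonneg_left (Real.exp_le_exp.2 ?_) hC
  have h5 : |w| ^ 2 = w ^ 2 := sq_abs w
  nlinarith [sq_nonneg (|w| / 2 - 3)]

theorem nw_nonneg (Z : Finset ℂ) (t h w : ℝ) :
    0 ≤ nw Z (fun s => (mult riemannZeta s : ℝ)) t h w := by
  refine Finset.sum_nonneg fun s _ => ?_
  split_ifs
  · positivity
  · exact le_rfl

theorem nw_le (U1 U2 t h w : ℝ) (hU : 1 ≤ U1) :
    nw (Zf riemannZeta U1 U2) (fun s => (mult riemannZeta s : ℝ)) t h w ≤
      (NN riemannZeta U1 U2 : ℝ) := by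
  rw [H370.NN_eq H370.good_zeta hU, Nat.cast_sum]
  refine Finset.sum_le_sum fun s _ => ?_
  split_ifs
  · exact le_rfl
  · positivity

theorem nw_eq (U1 U2 t h w : ℝ) (hU : 1 ≤ U1) (h1 : U1 ≤ t + w) (h2 : t + w + h ≤ U2) :
    nw (Zf riemannZeta U1 U2) (fun s => (mult riemannZeta s : ℝ)) t h w =
      (NN riemannZeta (t + w) (t + w + h) : ℝ) := by
  rw [H370.NN_eq H370.good_zeta (hU.trans h1), Nat.cast_sum]
  unfold nw
  rw [← Finset.sum_filter]
  refine Finset.sum_congr ?_ fun s _ => rfl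
  ext s
  rw [Finset.mem_filter, H370.mem_Zf H370.good_zeta hU,
    H370.mem_Zf H370.good_zeta (hU.trans h1)]
  constructor
  · rintro ⟨⟨a1, a2, a3, a4, a5⟩, b1, b2⟩
    exact ⟨a1, a2, by linarith, by linarith, a5⟩
  · rintro ⟨a1, a2, a3, a4, a5⟩
    exact ⟨⟨a1, a2, by linarith, by linarith, a5⟩, by linarith, by linarith⟩

theorem t_CNT (hK : S_KER) : S_CNT := by
  obtain ⟨C0, hC0, hK⟩ := hK
  intro h hh
  obtain ⟨C2, hC2, hN⟩ := H370.NN_crude H370.good_zeta
  obtain ⟨G, hG⟩ : ∃ G : ℝ, G = ∫ w : ℝ, Real.exp (-(1 / 4) * w ^ 2) := ⟨_, rfl⟩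
  have hG0 : 0 ≤ G := by
    rw [hG]
    exact integral_nonneg fun w => (Real.exp_pos _).le
  have hGi : Integrable fun w : ℝ => Real.exp (-(1 / 4) * w ^ 2) :=
    integrable_exp_neg_mul_sq (by norm_num)
  refine ⟨C2 * Real.exp 9 * G + 1, 10, by positivity, le_refl _,
    fun T hT U1 U2 hU1 hU1' hU2 hU2' B hB hB' t M ht ht' hM => ?_⟩
  obtain ⟨-, k1, k2, -, k3, -⟩ := hK B hB
  have hT0 : 0 < T := by linarith
  have hL : 1 ≤ Real.log T := by
    rw [Real.le_log_iff_exp_le hT0]
    linarith [Real.exp_one_lt_d9]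
  have hU : 1 ≤ U1 := by linarith
  have hTL : 0 ≤ C2 * (T * Real.log T) := by positivity
  set n : ℝ → ℝ := nw (Zf riemannZeta U1 U2) (fun s => (mult riemannZeta s : ℝ)) t h with hn
  have hn0 : ∀ w, 0 ≤ n w := fun w => nw_nonneg _ _ _ _
  have hn1 : ∀ w, n w ≤ C2 * (T * Real.log T) := fun w =>
    (nw_le U1 U2 t h w hU).trans (hN T (by linarith) U1 U2 hU1 hU2')
  have hn2 : ∀ w, |w| ≤ Real.log T → n w = (NN riemannZeta (t + w) (t + w + h) : ℝ) := by
    intro w hw
    rw [abs_le] at hw
    exact nw_eq U1 U2 t h w hU (by linarith [hw.1]) (by linarith [hw.2])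
  have hsw : ∫ v in (0 : ℝ)..h, ∑ s ∈ Zf riemannZeta U1 U2, (mult riemannZeta s : ℝ) *
      KR B (s.im - (t + v)) = ∫ w : ℝ, KR B w * n w :=
    swap (Zf riemannZeta U1 U2) (fun s => (mult riemannZeta s : ℝ)) t h hh.le (KR B) k2
  have hni : Integrable fun w => KR B w * n w := nw_int _ _ t h (KR B) k2
  have htl : ∀ w, Real.log T ≤ |w| → KR B w * (C2 * (T * Real.log T)) ≤
      C2 * Real.exp 9 * Real.exp (-(1 / 4) * w ^ 2) := by
    intro w hw
    refine le_trans ?_ (tail T B C2 w hT (by linarith) hB' hC2.le hw)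
    exact mul_le_mul_of_nonneg_right (k1 w).2 hTL
  have hpos : ∀ w : ℝ, 0 ≤ C2 * Real.exp 9 * Real.exp (-(1 / 4) * w ^ 2) := fun w => by positivity
  rw [hsw]
  constructor
  · intro hup
    have h1 : ∫ w : ℝ, KR B w * n w ≤
        ∫ w : ℝ, (KR B w * M + C2 * Real.exp 9 * Real.exp (-(1 / 4) * w ^ 2)) := by
      refine integral_mono hni ((k3.mul_const M).add (hGi.const_mul _)) fun w => ?_
      simp only
      rcases le_total |w| (Real.log T) with hw | hw
      · have hw' := abs_le.1 hw
        rw [hn2 w hw]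
        have h2 := hup (t + w) (by linarith [hw'.1]) (by linarith [hw'.2])
        have h3 := mul_le_mul_of_nonneg_left h2 (k1 w).1
        linarith [hpos w]
      · have h2 := mul_le_mul_of_nonneg_left (hn1 w) (k1 w).1
        have h3 := mul_nonneg (k1 w).1 hM
        linarith [htl w hw]
    rw [integral_add (k3.mul_const M) (hGi.const_mul _), integral_mul_const,
      integral_const_mul, ← hG] at h1
    linarith
  · intro hlow
    have hM2 : M ≤ C2 * (T * Real.log T) := by
      refine (hlow t (by linarith) (by linarith)).trans ?_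
      exact hN T (by linarith) t (t + h) (by linarith) (by linarith)
    have h1 : ∫ w : ℝ, KR B w * M ≤
        ∫ w : ℝ, (KR B w * n w + C2 * Real.exp 9 * Real.exp (-(1 / 4) * w ^ 2)) := by
      refine integral_mono (k3.mul_const M) (hni.add (hGi.const_mul _)) fun w => ?_
      simp only
      rcases le_total |w| (Real.log T) with hw | hw
      · have hw' := abs_le.1 hw
        rw [hn2 w hw]
        have h2 := hlow (t + w) (by linarith [hw'.1]) (by linarith [hw'.2])
        have h3 := mul_le_mul_of_nonneg_left h2 (k1 w).1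
        linarith [hpos w]
      · have h2 := mul_le_mul_of_nonneg_left hM2 (k1 w).1
        have h3 := mul_nonneg (k1 w).1 (hn0 w)
        linarith [htl w hw]
    rw [integral_add hni (hGi.const_mul _), integral_mul_const,
      integral_const_mul, ← hG] at h1
    linarith

end

end Pool.Agent.Y474.OM
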